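import Mathlib
import Pool.Agent.N990.RT.Defs

/-!
# The planar rotator on the hierarchical lattice of dimension two: statements of the parts

Theorem: at every temperature there is exactly one Gibbs state.

Uniqueness. Let `E` be the energy `∑ (φ_x - φ_y)²` of a function `φ` on the vertices which is `0` at
the ends. Rotating the spins by `± s φ_x` one obtains for the law `ν` of the spin at a vertex with
`φ = 1` that `ν(B + s) ν(B - s) ≥ exp (- |β| s² E) ν(B)²` (Cauchy-Schwarz), hence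
`ν ≥ exp (- |β| π² E) ha` (take `B + g` with nearly maximal measure). In dimension two the middle
vertex of a branch has such a function with `E = 2` at all scales. So passing from the ends of
`H (n + 1)` to those of `H n` one end is replaced by a spin with law at least `δ ha`, and the
influence of the ends decays.

Existence: compactness.
-/

open MeasureTheory
open Pool.Agent.N988.EA

namespace Pool.Agent.N990.RT

noncomputable section

/-- The lower bound of the densities. -/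
def dl (β : ℝ) : ℝ := Real.exp (-(2 * Real.pi ^ 2 * |β|))

/-- The spins of the ends of `H n`. -/
def ends (p : ℕ → Fin 2 × Bool) (n : ℕ) (ω : VInf p → Ang) : Bool → Ang :=
  fun t => ω (inc p n (.inl t))

/-- The conditional expectation given the spins outside the interior of `H n`. -/
def GG (β : ℝ) (p : ℕ → Fin 2 × Bool) (n : ℕ) (f : (VInf p → Ang) → ℝ) (ω : VInf p → Ang) : ℝ :=
  ∫ σ, f (repl p n ω σ) ∂(gib β n (ends p n ω))

/-- The conditional expectation of a function of the ends of `H n` given the ends of `H (n + 1)`. -/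
def Top (β : ℝ) (p : ℕ → Fin 2 × Bool) (n : ℕ) (f : (Bool → Ang) → ℝ) (τ : Bool → Ang) : ℝ :=
  ∫ σ, f (fun t => if t = (p n).2 then τ t else σ (Sum.inl (p n).1 : Vert 2 (n + 1)))
    ∂(gib β (n + 1) τ)

/-- The conditional expectation of a function of the ends of `H n` given the ends of `H (n + k)`. -/
def itT (β : ℝ) (p : ℕ → Fin 2 × Bool) (n : ℕ) (f : (Bool → Ang) → ℝ) : ℕ → (Bool → Ang) → ℝ
  | 0 => f
  | k + 1 => Top β p (n + k) (itT β p n f k)

/-- The configuration `σ` with the spins inside the half `q.2` of the branch `q.1` replaced. -/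
def upd (n : ℕ) (q : Fin 2 × Bool) (σ : Vert 2 (n + 1) → Ang) (σ' : Vert 2 n → Ang) :
    Vert 2 (n + 1) → Ang :=
  fun x => Sum.elim (fun i : Fin 2 => σ (Sum.inl i : Vert 2 (n + 1)))
    (fun y : Fin 2 × Bool × Vert 2 n => if (y.1, y.2.1) = q then σ' y.2.2
      else σ (Sum.inr y : Vert 2 (n + 1))) x

/-- BAS: basic facts. `Z > 0` because the density is continuous and positive; the formula by
`integral_withDensity_eq_integral_smul`; measurability by `StronglyMeasurable.integral_prod_right'`.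
`cs` is continuous (`Real.cos_periodic.lift`; `AddCircle.continuous_...`, quotient topology). -/
def S_BAS : Prop := ∀ (β : ℝ) (n : ℕ),
  Continuous (act β n) ∧
  (∃ C : ℝ, ∀ θ, |act β n θ| ≤ C) ∧
  (Continuous (Zf β n) ∧ ∀ τ, 0 < Zf β n τ) ∧
  (∀ τ, IsProbabilityMeasure (gib β n τ)) ∧
  (∀ τ (F : (Vert 2 n → Ang) → ℝ), ∫ σ, F σ ∂(gib β n τ) =
    (∫ σ, F σ * Real.exp (act β n (Sum.elim τ σ)) ∂(refm n)) / Zf β n τ) ∧
  (∀ (X : Type) [MeasurableSpace X] (g : X → Bool → Ang) (f : X × (Vert 2 n → Ang) → ℝ),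
    Measurable g → Measurable f → Measurable fun x => ∫ σ, f (x, σ) ∂(gib β n (g x)))

/-- ENE: the function of energy two for the middle vertex of the branch `i`. Proof: first
`ψ_n : Pt 2 n → ℝ` with the values `0` at the end `false`, `1` at the end `true` and energy `1`:
`ψ_0 (inl s) = [s]`, `ψ_(n+1) (inl s) = [s]`, `ψ_(n+1) (inr (inl i)) = 1 / 2`,
`ψ_(n+1) (inr (inr (i, h, x))) = (ψ_n (inr x) + [h]) / 2`; so
`ψ_(n+1) (emb i h y) = (ψ_n y + [h]) / 2` for all `y`, and the energy of `ψ_(n+1)` is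
`4 * (1 / 4)` times the one of `ψ_n`. Then `φ (emb i false y) = ψ_n y`,
`φ (emb i true y) = 1 - ψ_n y`, and `φ = 0` at the ends and on the other branch. -/
def S_ENE : Prop := ∀ (n : ℕ) (i : Fin 2), ∃ φ : Pt 2 (n + 1) → ℝ,
  (∀ t : Bool, φ (Sum.inl t) = 0) ∧ φ (Sum.inr (Sum.inl i : Vert 2 (n + 1))) = 1 ∧
  ∑ e : Edge 2 (n + 1), (φ (bd (n + 1) e false) - φ (bd (n + 1) e true)) ^ 2 = 2

/-- CSI (from `S_BAS`, `S_ENE`): Proof: `refm (n + 1)` is invariant under
`σ ↦ fun x => σ x ± (s * φ (inr x) : ℝ)`; so, with `I_± = ∫ 1_B (σ (inl i)) exp (act (Sum.elim τ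
(σ ± s φ))) ∂refm`, the right side is `I_+ I_- / Z²` (the shift maps `{σ_i - s ∈ B}` to `{σ_i ∈ B}`).
By Cauchy-Schwarz `I_+ I_- ≥ (∫ 1_B exp ((act_+ + act_-) / 2))²`, and
`act_+ + act_- - 2 act_0 = β ∑ 2 cos (..) (cos (s (φ_x - φ_y)) - 1) ≥ - |β| s² ∑ (φ_x - φ_y)²
= - 2 |β| s²` because `0 ≤ 1 - cos u ≤ u² / 2`. -/
def S_CSI : Prop := ∀ (β : ℝ) (n : ℕ) (i : Fin 2) (τ : Bool → Ang) (B : Set Ang),
  MeasurableSet B → ∀ s : ℝ,
    Real.exp (-(2 * |β| * s ^ 2)) *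
      (gib β (n + 1) τ).real {σ | σ (Sum.inl i : Vert 2 (n + 1)) ∈ B} ^ 2 ≤
    (gib β (n + 1) τ).real {σ | σ (Sum.inl i : Vert 2 (n + 1)) - (s : Ang) ∈ B} *
      (gib β (n + 1) τ).real {σ | σ (Sum.inl i : Vert 2 (n + 1)) + (s : Ang) ∈ B}

/-- AVG (abstract). Proof: let `S = ⨆ g, ν {z | z + g ∈ B}` (over `g : Ang`). Every `g` is the class
of a real `|s| ≤ π`, so with `ν {z | z + g₀ ∈ B} ≥ (1 - η) S` one gets, applying the assumption to
`{z | z + g₀ ∈ B}`, `ν {z | z + (g₀ + g) ∈ B} * S ≥ exp (-(c π²)) (1 - η)² S²` for all `g`. Take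
`g = - g₀`, let `η → 0`: `ν B ≥ exp (-(c π²)) S`. Finally `S ≥ ∫ g, ν {z | z + g ∈ B} ∂ha = ha B` by
Fubini and invariance. -/
def S_AVG : Prop := ∀ (ν : Measure Ang) [IsProbabilityMeasure ν] (c : ℝ), 0 ≤ c →
  (∀ (B : Set Ang), MeasurableSet B → ∀ s : ℝ,
    Real.exp (-(c * s ^ 2)) * ν.real B ^ 2 ≤
      ν.real {z | z - (s : Ang) ∈ B} * ν.real {z | z + (s : Ang) ∈ B}) →
  ∀ (B : Set Ang), MeasurableSet B → Real.exp (-(c * Real.pi ^ 2)) * ha.real B ≤ ν.real B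

/-- STP (from `S_BAS`, `S_CSI`, `S_AVG`): one step. Proof: the law `ν` of the spin
`σ (inl (p n).1)` under `gib β (n + 1) τ` is at least `dl β • ha` (`S_CSI`, `S_AVG` with
`c = 2 |β|`), so for measurable `F : Ang → ℝ` with `a ≤ F ≤ b`,
`∫ F ∂ν - dl β * ∫ F ∂ha` is between `(1 - dl β) a` and `(1 - dl β) b`. -/
def S_STP : Prop := ∀ (β : ℝ) (p : ℕ → Fin 2 × Bool) (n : ℕ) (f : (Bool → Ang) → ℝ) (a b : ℝ),
  Measurable f → (∀ τ, a ≤ f τ ∧ f τ ≤ b) → ∀ τ : Bool → Ang,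
  dl β * (∫ z, f (fun t => if t = (p n).2 then τ t else z) ∂ha) + (1 - dl β) * a ≤
    Top β p n f τ ∧
  Top β p n f τ ≤
    dl β * (∫ z, f (fun t => if t = (p n).2 then τ t else z) ∂ha) + (1 - dl β) * b

/-- OSC (from `S_STP`, `S_BAS`): the influence of the ends decays. Proof: `itT` is measurable
with the bounds of `f` (`S_BAS`; `Top` is monotone, linear, preserves constants and functions of the
kept end `τ (p n).2`). Let `a ≤ f ≤ b`, `h = (p n).2`,
`F₁ (τ h) = ∫ z, f (τ h, z) ∂ha`, `F₂ = ∫ F₁ ∂ha`. As long as `(p (n + k)).2 = h` one has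
`dl F₁ (τ h) + (1 - dl) a ≤ itT (k + 1) τ ≤ dl F₁ (τ h) + (1 - dl) b`; at the first `k` with
`(p (n + k)).2 ≠ h` one has `dl² F₂ + (1 - dl²) a ≤ itT (k + 1) τ ≤ dl² F₂ + (1 - dl²) b`. So the
oscillation is multiplied by `1 - dl²`; iterate (`itT (k + l) = itT` of `itT k` from the level
`n + k`). -/
def S_OSC : Prop := ∀ (β : ℝ) (p : ℕ → Fin 2 × Bool),
  (∀ (s : Bool) (k : ℕ), ∃ n, k ≤ n ∧ (p n).2 = s) → ∀ (n : ℕ) (f : (Bool → Ang) → ℝ),
  Measurable f → (∀ τ, 0 ≤ f τ ∧ f τ ≤ 1) → ∀ ε : ℝ, 0 < ε →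
    ∃ k : ℕ, ∀ τ τ', itT β p n f k τ ≤ itT β p n f k τ' + ε

/-- GEO: the vertices of the infinite lattice. `emb i h` is injective; `inc p n y` is `inl _` or
`inr ⟨m, _⟩` with `m < n`. -/
def S_GEO : Prop := ∀ (p : ℕ → Fin 2 × Bool),
  Countable (VInf p) ∧
  (∀ n x, inc p (n + 1) (emb (p n).1 (p n).2 x) = inc p n x) ∧
  (∀ n, Function.Injective (inc p n)) ∧
  (∀ v, ∃ n x, inc p n x = v) ∧
  (∀ n ω σ, (∀ x, repl p n ω σ (inc p n (.inr x)) = σ x) ∧
    (∀ v, (∀ x, inc p n (.inr x) ≠ v) → repl p n ω σ v = ω v)) ∧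
  (∀ n ω σ σ', repl p n (repl p (n + 1) ω σ) σ' = repl p (n + 1) ω (upd n (p n) σ σ')) ∧
  (∀ n, Continuous fun z : (VInf p → Ang) × (Vert 2 n → Ang) => repl p n z.1 z.2) ∧
  (∀ n, Measurable fun z : (VInf p → Ang) × (Vert 2 n → Ang) => repl p n z.1 z.2)

/-- TOP (from `S_GEO`, `S_BAS`): `dlr` at level `n + 1` for `f ∘ ends p n`; with
`ends p n (repl p (n + 1) ω σ) t = if t = (p n).2 then ends p (n + 1) ω t else
σ (inl (p n).1)` (`emb i h (inl t) = if t = h then inl h else inr (inl i)`). -/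
def S_TOP : Prop := ∀ (β : ℝ) (p : ℕ → Fin 2 × Bool) (μ : Measure (VInf p → Ang)),
  IsGibbs β p μ → ∀ (n : ℕ) (f : (Bool → Ang) → ℝ), Measurable f → (∃ C, ∀ τ, |f τ| ≤ C) →
    ∫ ω, f (ends p n ω) ∂μ = ∫ ω, Top β p n f (ends p (n + 1) ω) ∂μ

/-- UQE (from `S_TOP`, `S_OSC`, `S_BAS`): the ends of `H n` have the same law in all Gibbs states.
Proof: by `S_TOP` and induction `∫ f (ends p n ω) ∂μ = ∫ itT β p n f k (ends p (n + k) ω) ∂μ`. -/
def S_UQE : Prop := ∀ (β : ℝ) (p : ℕ → Fin 2 × Bool),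
  (∀ (s : Bool) (k : ℕ), ∃ n, k ≤ n ∧ (p n).2 = s) → ∀ μ μ' : Measure (VInf p → Ang),
  IsGibbs β p μ → IsGibbs β p μ' → ∀ (n : ℕ) (f : (Bool → Ang) → ℝ), Measurable f →
    (∀ τ, 0 ≤ f τ ∧ f τ ≤ 1) → ∫ ω, f (ends p n ω) ∂μ = ∫ ω, f (ends p n ω) ∂μ'

/-- UNI (from `S_UQE`, `S_GEO`, `S_BAS`): uniqueness. Proof: by `dlr` for functions
`F (ω ∘ inc p n)`, `∫ F (ω ∘ inc p n) ∂μ = ∫ g (ends p n ω) ∂μ` with
`g τ = ∫ F (Sum.elim τ σ) ∂(gib β n τ)`, measurable; so `μ` and `μ'` agree on the cylinders over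
`H n`; every finite set of vertices is in some `H n` (`S_GEO`), so all finite marginals agree
(`IsProjectiveLimit.unique` or a π-system). -/
def S_UNI : Prop := ∀ (β : ℝ) (p : ℕ → Fin 2 × Bool),
  (∀ (s : Bool) (k : ℕ), ∃ n, k ≤ n ∧ (p n).2 = s) → ∀ μ μ' : Measure (VInf p → Ang),
  IsGibbs β p μ → IsGibbs β p μ' → μ = μ'

/-- FIN (from `S_BAS`): the finite volume Gibbs distributions are consistent. Proof:
`act β (n + 1) (Sum.elim τ σ) = act β n (Sum.elim (ends of the half q) (σ restricted to the half q))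
+ R (τ, σ)`, where `R` does not change if `σ` is replaced by `upd n q σ σ'`, and
`(σ, σ') ↦ (upd n q σ σ', σ restricted to the half q)` preserves `refm (n + 1) × refm n`. -/
def S_FIN : Prop := ∀ (β : ℝ) (n : ℕ) (q : Fin 2 × Bool) (τ : Bool → Ang)
  (G : (Vert 2 (n + 1) → Ang) → ℝ), Measurable G → (∃ C, ∀ σ, |G σ| ≤ C) →
  ∫ σ, G σ ∂(gib β (n + 1) τ) =
    ∫ σ, (∫ σ', G (upd n q σ σ') ∂(gib β n fun t =>
      (Sum.elim τ σ : Pt 2 (n + 1) → Ang) (emb q.1 q.2 (.inl t)))) ∂(gib β (n + 1) τ)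

/-- CNS (from `S_FIN`, `S_GEO`, `S_BAS`). -/
def S_CNS : Prop := ∀ (β : ℝ) (p : ℕ → Fin 2 × Bool) (n : ℕ) (f : (VInf p → Ang) → ℝ),
  Measurable f → (∃ C, ∀ ω, |f ω| ≤ C) → ∀ ω, GG β p (n + 1) (GG β p n f) ω = GG β p (n + 1) f ω

/-- FEL (from `S_BAS`, `S_GEO`). Proof: the formula of `S_BAS` and `continuous_of_dominated` (all
spaces are compact, so continuous functions are bounded). -/
def S_FEL : Prop := ∀ (β : ℝ) (p : ℕ → Fin 2 × Bool) (n : ℕ) (f : (VInf p → Ang) → ℝ),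
  Continuous f → Continuous (GG β p n f)

/-- EXI (from `S_CNS`, `S_FEL`, `S_GEO`, `S_BAS`): existence. Proof: let `μ_N` be the law of
`repl p N 0 σ`, `σ` with law `gib β N 0`; so `∫ f ∂μ_N = GG β p N f 0`. By `S_CNS` and induction
`GG β p N (GG β p n f) = GG β p N f` for `n ≤ N`, so `∫ GG β p n f ∂μ_N = ∫ f ∂μ_N`. The space
`ProbabilityMeasure (VInf p → Ang)` is compact (`instCompactSpaceProbabilityMeasure`); at a cluster
point (limit along an ultrafilter) the equation holds for continuous `f` by `S_FEL`, hence for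
all bounded measurable `f` (both sides are integrals of `f` with respect to finite measures, which
agree on continuous functions: `ext_of_forall_integral_eq_of_IsFiniteMeasure`). -/
def S_EXI : Prop := ∀ (β : ℝ) (p : ℕ → Fin 2 × Bool), ∃ μ : Measure (VInf p → Ang), IsGibbs β p μ

end

end Pool.Agent.N990.RT
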